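import Mathlib

set_option autoImplicit false

namespace Pool.Agent.Results.MP_c0e3d8_co.Yes

variable {A : Type}

/-- The morphism of the free monoid determined by the images `f a` of the letters. -/
def mor (f : A → List A) (l : List A) : List A := l.flatMap f

/-- The finite word `x` occurs in the infinite word `w` at position `j`. -/
def OccAt (x : List A) (w : ℕ → A) (j : ℕ) : Prop := ∀ (k : ℕ) (h : k < x.length), w (j + k) = x[k]

/-- An infinite word is quasiperiodic if the occurrences of some finite word cover it. -/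
def Quasiperiodic (w : ℕ → A) : Prop :=
  ∃ x : List A, ∀ i, ∃ j, j ≤ i ∧ i < j + x.length ∧ OccAt x w j

/-- The prefix of length `n` of an infinite word. -/
def pre (w : ℕ → A) (n : ℕ) : List A := (List.range n).map w

/-- `f(w) = f(w₀) f(w₁) ⋯` is infinite and equals `v`. -/
def IsImage (f : A → List A) (w v : ℕ → A) : Prop :=
  (∀ n, OccAt (mor f (pre w n)) v 0) ∧ ∀ L, ∃ n, L ≤ (mor f (pre w n)).length

/-- `f` generates the infinite word `u = f^ω(a)`. -/
def Generates (f : A → List A) (a : A) (u : ℕ → A) : Prop :=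
  (∃ t, f a = a :: t) ∧ (∀ L, ∃ n, L ≤ ((mor f)^[n] [a]).length) ∧
    ∀ n, OccAt ((mor f)^[n] [a]) u 0

/-- Weakly quasiperiodic on infinite words. -/
def WeaklyQuasiperiodic (f : A → List A) : Prop :=
  ∃ w v : ℕ → A, ¬ Quasiperiodic w ∧ IsImage f w v ∧ Quasiperiodic v

/-! ### Basic facts -/

theorem occ_append {x y : List A} {w : ℕ → A} {j : ℕ} :
    OccAt (x ++ y) w j ↔ OccAt x w j ∧ OccAt y w (j + x.length) := by
  constructor
  · intro h
    refine ⟨fun k hk => ?_, fun k hk => ?_⟩
    · rw [h k (by simp; omega), List.getElem_append_left hk]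
    · rw [add_assoc, h (x.length + k) (by simp; omega), List.getElem_append_right (by omega)]
      simp
  · rintro ⟨h1, h2⟩ k hk
    by_cases c : k < x.length
    · rw [h1 k c, List.getElem_append_left c]
    · rw [List.getElem_append_right (by omega), ← h2 (k - x.length) (by simp at hk; omega)]
      congr 1
      omega

theorem occ_prefix {x y : List A} {w : ℕ → A} {j : ℕ} (h : x <+: y) (hy : OccAt y w j) :
    OccAt x w j := by
  obtain ⟨z, rfl⟩ := h
  exact (occ_append.1 hy).1

theorem prefix_of_occ {x y : List A} {w : ℕ → A} {j : ℕ} (hx : OccAt x w j) (hy : OccAt y w j)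
    (h : x.length ≤ y.length) : x <+: y := by
  rw [List.prefix_iff_eq_take]
  apply List.ext_getElem (by simp; omega)
  intro k h1 h2
  rw [List.getElem_take, ← hx k h1, hy k (by omega)]

theorem occ_pre (w : ℕ → A) (n : ℕ) : OccAt (pre w n) w 0 := by
  intro k hk
  simp [pre]

theorem pre_length (w : ℕ → A) (n : ℕ) : (pre w n).length = n := by simp [pre]

theorem iter_append (f : A → List A) (n : ℕ) (x y : List A) :
    (mor f)^[n] (x ++ y) = (mor f)^[n] x ++ (mor f)^[n] y := by
  induction n generalizing x y with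
  | zero => rfl
  | succ n ih => simp only [Function.iterate_succ_apply, mor, List.flatMap_append, ← ih]

theorem iter_prefix (f : A → List A) (n : ℕ) {x y : List A} (h : x <+: y) :
    (mor f)^[n] x <+: (mor f)^[n] y := by
  obtain ⟨z, rfl⟩ := h
  rw [iter_append]
  exact List.prefix_append _ _

theorem iter_head {f : A → List A} {a : A} (h : ∃ t, f a = a :: t) (n : ℕ) :
    [a] <+: (mor f)^[n] [a] := by
  induction n with
  | zero => exact List.prefix_refl _
  | succ n ih =>
    obtain ⟨t, ht⟩ := h
    refine ih.trans ?_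
    rw [Function.iterate_succ_apply]
    exact iter_prefix f n ⟨t, by simp [mor, ht]⟩

theorem exists_limit (P : ℕ → List A) (h1 : ∀ N, P N <+: P (N + 1)) (h2 : ∀ N, N ≤ (P N).length) :
    ∃ v : ℕ → A, ∀ N, OccAt (P N) v 0 := by
  have mono : ∀ M N, M ≤ N → P M <+: P N := by
    intro M N h
    induction N, h using Nat.le_induction with
    | base => exact List.prefix_refl _
    | succ N _ ih => exact ih.trans (h1 N)
  refine ⟨fun i => (P (i + 1))[i]'(h2 (i + 1)), fun N k hk => ?_⟩
  simp only [zero_add]
  rw [(mono (k + 1) (max N (k + 1)) (le_max_right _ _)).getElem,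
    (mono N (max N (k + 1)) (le_max_left _ _)).getElem]

theorem exists_block (s : ℕ → ℕ) (h0 : s 0 = 0) (h2 : ∀ N, N ≤ s N) (i : ℕ) :
    ∃ N, s N ≤ i ∧ i < s (N + 1) := by
  classical
  have hex : ∃ N, i < s N := ⟨i + 1, h2 _⟩
  have h1 := Nat.find_spec hex
  obtain ⟨N, hN⟩ : ∃ N, Nat.find hex = N + 1 := by
    refine Nat.exists_eq_succ_of_ne_zero fun h => ?_
    rw [h, h0] at h1
    omega
  refine ⟨N, not_lt.1 (Nat.find_min hex (by omega)), hN ▸ h1⟩

/-- A word starting with `a` and containing no other `a`. -/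
def Ret (a : A) (r : List A) : Prop := ∃ s, r = a :: s ∧ a ∉ s

/-- `X` covers `Y` when `Y` is followed by `X`. -/
def Cov (X Y : List A) : Prop :=
  ∀ (w : ℕ → A) (p : ℕ), OccAt (Y ++ X) w p → ∀ i < Y.length,
    ∃ j, j ≤ p + i ∧ p + i < j + X.length ∧ OccAt X w j

def cat (B : ℕ → List A) : ℕ → List A
  | 0 => []
  | N + 1 => cat B N ++ B N

theorem not_qp {a : A} {r r' : List A} (hr : Ret a r) (hr' : Ret a r') (hne : r ≠ r')
    (B : ℕ → List A) (hB : ∀ k, B k = r ∨ B k = r') (h0 : B 0 = r')
    (hrun : ∀ L, ∃ k, L ≤ k ∧ ∀ k', k' ≤ k → k ≤ k' + L → B k' = r)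
    (w : ℕ → A) (hw : ∀ N, OccAt (cat B N) w 0) : ¬ Quasiperiodic w := by
  rintro ⟨X, hX⟩
  have hret : ∀ k, Ret a (B k) := fun k => by rcases hB k with h | h <;> rwa [h]
  set s : ℕ → ℕ := fun N => (cat B N).length with hs
  have hpos : ∀ k, 0 < (B k).length := fun k => by
    obtain ⟨t, h, -⟩ := hret k
    simp [h]
  have hsucc : ∀ k, s (k + 1) = s k + (B k).length := fun k => by simp [hs, cat]
  have hocc : ∀ k, OccAt (B k) w (s k) := fun k => by
    simpa using (occ_append.1 (hw (k + 1))).2
  have hadd : ∀ k d, s k + d ≤ s (k + d) := by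
    intro k d
    induction d with
    | zero => rfl
    | succ d ih => rw [← add_assoc, ← add_assoc, hsucc]; have := hpos (k + d); omega
  have hge : ∀ N, N ≤ s N := fun N => by simpa using (Nat.le_add_left _ _).trans (hadd 0 N)
  have ha : ∀ k, w (s k) = a := fun k => by
    obtain ⟨t, h, -⟩ := hret k
    have := hocc k 0 (hpos k)
    simpa [h] using this
  have hna : ∀ k t, 0 < t → t < (B k).length → w (s k + t) ≠ a := by
    intro k t h1 h2 e
    obtain ⟨z, h, hz⟩ := hret k
    rw [hocc k t h2] at e
    obtain ⟨t, rfl⟩ := Nat.exists_eq_succ_of_ne_zero h1.ne'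
    simp only [h, List.getElem_cons_succ] at e
    exact hz (e ▸ List.getElem_mem _)
  obtain ⟨j0, hj0, hlen, hX0⟩ := hX 0
  obtain rfl : j0 = 0 := by omega
  have hstart : ∀ j, OccAt X w j → ∃ k, j = s k := by
    intro j hj
    have e : w j = a := by
      have e1 := hj 0 (by omega)
      have e2 := hX0 0 (by omega)
      have e3 : w 0 = a := ha 0
      simp only [add_zero] at e1 e2
      rw [e1, ← e2, e3]
    obtain ⟨N, h1, h2⟩ := exists_block s rfl hge j
    refine ⟨N, ?_⟩
    by_contra c
    rw [hsucc] at h2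
    exact hna N (j - s N) (by omega) (by omega) (by rwa [show s N + (j - s N) = j by omega])
  have hlong : ∀ k, (B k).length ≤ X.length := by
    intro k
    obtain ⟨j, h1, h2, h3⟩ := hX (s k + (B k).length - 1)
    obtain ⟨k', rfl⟩ := hstart j h3
    have := hpos k
    rcases Nat.lt_or_ge k k' with c | c
    · have := hadd (k + 1) (k' - (k + 1))
      rw [show k + 1 + (k' - (k + 1)) = k' by omega, hsucc] at this
      omega
    · have := hadd k' (k - k')
      rw [show k' + (k - k') = k by omega] at this
      omega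
  have hlt : ∀ k l, OccAt X w (s k) → OccAt X w (s l) → ¬ (B k).length < (B l).length := by
    intro k l hk hl c
    have e1 := hk (B k).length (c.trans_le (hlong l))
    have e2 := hl (B k).length (c.trans_le (hlong l))
    rw [← hsucc, ha] at e1
    exact hna l _ (hpos k) c (e2.trans e1.symm)
  obtain ⟨k, hk1, hk2⟩ := hrun X.length
  obtain ⟨j, h1, h2, h3⟩ := hX (s k)
  obtain ⟨k', rfl⟩ := hstart j h3
  have c1 : k' ≤ k := by
    by_contra c
    have := hadd k (k' - k)
    rw [show k + (k' - k) = k' by omega] at this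
    omega
  have c2 : k ≤ k' + X.length := by
    have := hadd k' (k - k')
    rw [show k' + (k - k') = k by omega] at this
    omega
  have e := hk2 k' c1 c2
  have l1 := hlt 0 k' hX0 h3
  have l2 := hlt k' 0 h3 hX0
  have p1 := prefix_of_occ (hocc k') h3 (hlong k')
  have p2 := prefix_of_occ (hocc 0) hX0 (hlong 0)
  rw [e, h0] at l1 l2
  rw [e] at p1
  rw [h0] at p2
  exact hne ((List.prefix_of_prefix_length_le p1 p2 (by omega)).eq_of_length (by omega))

theorem weak_of_cov {f : A → List A} {a : A} (hf : ∃ t, f a = a :: t) {r r' X : List A} {n : ℕ}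
    (hr : Ret a r) (hr' : Ret a r') (hne : r ≠ r') (hX : X <+: (mor f)^[n] [a])
    (c1 : Cov X ((mor f)^[n] r)) (c2 : Cov X ((mor f)^[n] r')) : WeaklyQuasiperiodic f := by
  classical
  let B : ℕ → List A := fun k => if k = 0 then r' else r
  have hB : ∀ k, B k = r ∨ B k = r' := fun k => by
    by_cases h : k = 0 <;> simp [B, h]
  have hhead : ∀ k m, (mor f)^[m] [a] <+: (mor f)^[m] (B k) := fun k m => by
    apply iter_prefix
    rcases hB k with h | h
    · obtain ⟨t, ht, -⟩ := hr
      exact ⟨t, by simp [h, ht]⟩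
    · obtain ⟨t, ht, -⟩ := hr'
      exact ⟨t, by simp [h, ht]⟩
  have hlen : ∀ m N, N ≤ ((mor f)^[m] (cat B N)).length := by
    intro m N
    induction N with
    | zero => omega
    | succ N ih =>
      have := ((iter_head hf m).trans (hhead N m)).length_le
      simp only [cat, iter_append, List.length_append, List.length_singleton] at this ⊢
      omega
  have hlim : ∀ m, ∃ v : ℕ → A, ∀ N, OccAt ((mor f)^[m] (cat B N)) v 0 := fun m =>
    exists_limit _ (fun N => iter_prefix f m (List.prefix_append _ _)) (hlen m)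
  choose W hW using hlim
  have himg : ∀ m, IsImage f (W m) (W (m + 1)) := by
    intro m
    refine ⟨fun j => ?_, fun L => ⟨((mor f)^[m] (cat B L)).length, ?_⟩⟩
    · have h1 := prefix_of_occ (occ_pre (W m) j) (hW m j) (by rw [pre_length]; exact hlen m j)
      have h2 := hW (m + 1) j
      rw [Function.iterate_succ_apply'] at h2
      exact occ_prefix (iter_prefix f 1 h1) h2
    · have h1 := (prefix_of_occ (occ_pre (W m) ((mor f)^[m] (cat B L)).length) (hW m L)
        (by rw [pre_length])).eq_of_length (pre_length _ _)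
      rw [h1, ← Function.iterate_succ_apply' (mor f)]
      exact hlen _ _
  have h0 : ¬ Quasiperiodic (W 0) :=
    not_qp hr hr' hne B hB (by simp [B])
      (fun L => ⟨L + 1, by omega, fun k' _ h => if_neg (by omega)⟩) _ (hW 0)
  have hn : Quasiperiodic (W n) := by
    refine ⟨X, fun i => ?_⟩
    obtain ⟨N, h1, h2⟩ := exists_block (fun N => ((mor f)^[n] (cat B N)).length)
      (by simp [cat, Function.iterate_fixed (f := mor f) (x := []) rfl]) (hlen n) i
    have h3 := hW n (N + 2)
    simp only [cat, iter_append, List.append_assoc, List.length_append] at h1 h2 h3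
    have h4 := (occ_append.1 h3).2
    have h5 : OccAt ((mor f)^[n] (B N) ++ X) (W n) (0 + ((mor f)^[n] (cat B N)).length) :=
      occ_prefix ((List.prefix_append_right_inj _).2 (hX.trans (hhead _ _))) h4
    have h6 : Cov X ((mor f)^[n] (B N)) := by rcases hB N with h | h <;> rwa [h]
    obtain ⟨j, hj⟩ := h6 _ _ h5 (i - ((mor f)^[n] (cat B N)).length) (by omega)
    exact ⟨j, by omega, by omega, hj.2.2⟩
  have hex : ∃ m, Quasiperiodic (W m) := ⟨n, hn⟩
  obtain ⟨m, hm⟩ : ∃ m, Nat.find hex = m + 1 :=
    Nat.exists_eq_succ_of_ne_zero fun h => h0 (h ▸ Nat.find_spec hex)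
  exact ⟨W m, W (m + 1), Nat.find_min hex (by omega), himg m, hm ▸ Nat.find_spec hex⟩

theorem cov_of {X Y : List A} {u : ℕ → A} {P : ℕ} (h : OccAt (Y ++ X) u P)
    (hc : ∀ i < Y.length, ∃ j, j ≤ i ∧ i < j + X.length ∧ OccAt X u (P + j)) : Cov X Y := by
  intro w p hw i hi
  obtain ⟨j, h1, h2, h3⟩ := hc i hi
  refine ⟨p + j, by omega, by omega, fun k hk => ?_⟩
  have hl : j + k < (Y ++ X).length := by simp; omega
  rw [add_assoc, hw _ hl, ← h _ hl, ← add_assoc, h3 k hk]

/-- If `f` generates a quasiperiodic infinite word `f^ω(a)` and `f(a)` is not a power of `a`,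
then `f` is weakly quasiperiodic on infinite words. -/
theorem result (A : Type) [Finite A] (f : A → List A) (a : A) (u : ℕ → A)
    (hgen : Generates f a u) (hqp : Quasiperiodic u) (hpow : ¬ ∃ k, f a = List.replicate k a) :
    WeaklyQuasiperiodic f := by
  classical
  obtain ⟨hf, hgrow, hpre⟩ := hgen
  obtain ⟨x, hx⟩ := hqp
  obtain ⟨j0, hj0, hlen, hx0⟩ := hx 0
  obtain rfl : j0 = 0 := by omega
  have hu0 : u 0 = a := hpre 0 0 (by simp)
  have hfix : ∀ n l, OccAt l u 0 → OccAt ((mor f)^[n] l) u 0 := by
    intro n l hl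
    obtain ⟨m, hm⟩ := hgrow l.length
    have h1 := iter_prefix f n (prefix_of_occ hl (hpre m) hm)
    rw [← Function.iterate_add_apply] at h1
    exact occ_prefix h1 (hpre _)
  have hinf : ∀ p, ∃ d, u (p + (d + 1)) = a := by
    intro p
    obtain ⟨j, h1, h2, h3⟩ := hx (p + x.length)
    refine ⟨j - p - 1, ?_⟩
    have e1 := h3 0 (by omega)
    have e2 := hx0 0 (by omega)
    simp only [add_zero] at e1 e2
    rw [show p + (j - p - 1 + 1) = j by omega, e1, ← e2, hu0]
  let blk : ℕ → List A := fun p => pre (fun t => u (p + t)) (Nat.find (hinf p) + 1)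
  have hblen : ∀ p, (blk p).length = Nat.find (hinf p) + 1 := fun p => pre_length _ _
  have hbocc : ∀ p, OccAt (blk p) u p := fun p k hk => by simp [blk, pre]
  have hnext : ∀ p, u (p + (blk p).length) = a := fun p => by
    rw [hblen]; exact Nat.find_spec (hinf p)
  have hret : ∀ p, u p = a → Ret a (blk p) := by
    intro p hp
    refine ⟨(List.range (Nat.find (hinf p))).map fun t => u (p + (t + 1)), ?_, ?_⟩
    · simp [blk, pre, List.range_succ_eq_map, hp]
    · simp only [List.mem_map, List.mem_range, not_exists, not_and]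
      exact fun t ht => Nat.find_min (hinf p) ht
  have hbig : ∀ n p, OccAt ((mor f)^[n] (blk p) ++ (mor f)^[n] [a]) u
      ((mor f)^[n] (pre u p)).length := by
    intro n p
    have h1 : OccAt (pre u p ++ (blk p ++ [a])) u 0 := by
      refine occ_append.2 ⟨occ_pre u p, ?_⟩
      rw [zero_add, pre_length]
      refine occ_append.2 ⟨hbocc p, fun k hk => ?_⟩
      obtain rfl : k = 0 := by simpa using hk
      exact hnext p
    have h2 := hfix n _ h1
    rw [iter_append, iter_append] at h2
    simpa using (occ_append.1 h2).2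
  by_cases hcase : ∃ p, u p = a ∧ blk p ≠ blk 0
  · obtain ⟨p, hp, hne⟩ := hcase
    obtain ⟨n, hn⟩ := hgrow x.length
    have hX := prefix_of_occ hx0 (hpre n) hn
    have hcov : ∀ p, u p = a → Cov x ((mor f)^[n] (blk p)) := by
      intro p hp
      have h1 := occ_prefix ((List.prefix_append_right_inj _).2 hX) (hbig n p)
      refine cov_of h1 fun i hi => ?_
      set P := ((mor f)^[n] (pre u p)).length
      obtain ⟨J, k1, k2, k3⟩ := hx (P + i)
      rcases Nat.lt_or_ge J P with c | c
      · obtain ⟨t, ht, -⟩ := hret p hp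
        exact ⟨0, by omega, by omega, occ_prefix
          (hX.trans (iter_prefix f n ⟨t, by simp [ht]⟩)) (occ_append.1 h1).1⟩
      · exact ⟨J - P, by omega, by omega, by rwa [show P + (J - P) = J by omega]⟩
    exact weak_of_cov hf (hret p hp) (hret 0 hu0) hne hX (hcov p hp) (hcov 0 hu0)
  · push Not at hcase
    set l := (blk 0).length with hl
    have hl0 : 0 < l := by rw [hl, hblen]; omega
    have ha : ∀ k, u (k * l) = a := by
      intro k
      induction k with
      | zero => simpa using hu0
      | succ k ih =>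
        have := hnext (k * l)
        rw [hcase _ ih] at this
        rwa [add_mul, one_mul]
    have hsm : ∀ k t, t < l → u (k * l + t) = u t := by
      intro k t ht
      have h1 := hbocc (k * l)
      rw [hcase _ (ha k)] at h1
      rw [h1 t ht, ← hbocc 0 t ht, zero_add]
    have hper : ∀ k t, u (k * l + t) = u t := by
      intro k t
      have h1 := hsm (k + t / l) (t % l) (Nat.mod_lt _ hl0)
      have h2 := hsm (t / l) (t % l) (Nat.mod_lt _ hl0)
      rw [Nat.div_add_mod'] at h2
      rw [add_mul, add_assoc, Nat.div_add_mod'] at h1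
      rw [h1, h2]
    have hne : blk 0 ≠ [a] := by
      intro h
      have h1 : l = 1 := by rw [hl, h]; rfl
      refine hpow ⟨(f a).length, List.eq_replicate_iff.2 ⟨rfl, fun b hb => ?_⟩⟩
      obtain ⟨k, hk, rfl⟩ := List.getElem_of_mem hb
      have h2 := hpre 1 k (by simpa [mor] using hk)
      have h3 := ha k
      rw [h1, mul_one] at h3
      simp only [zero_add, h3, Function.iterate_one, mor, List.flatMap_cons, List.flatMap_nil,
        List.append_nil] at h2
      exact h2.symm
    obtain ⟨n, hn⟩ := hgrow l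
    refine weak_of_cov hf (n := n) (hret 0 hu0) ⟨[], rfl, by simp⟩ hne (List.prefix_refl _)
      (cov_of (hbig n 0) fun i hi => ⟨i / l * l, Nat.div_mul_le_self _ _, ?_, ?_⟩) ?_
    · have := Nat.div_add_mod' i l
      have := Nat.mod_lt i hl0
      omega
    · intro k hk
      have e : ((mor f)^[n] (pre u 0)).length = 0 := by
        simp [pre, Function.iterate_fixed (f := mor f) (x := []) rfl]
      rw [e, zero_add, hper, ← hpre n k hk, zero_add]
    · intro w p hw i hi
      exact ⟨p, by omega, by omega, (occ_append.1 hw).1⟩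

end Pool.Agent.Results.MP_c0e3d8_co.Yes
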